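import Mathlib

/-!
# Open semigroups in a commutative Banach algebra for which `lim d(a^n)^(1/n)` does not exist

For `N : ℕ` let `K N ⊆ ℂ × ℂ` be the set of the points `(s z, (1 - s) z ^ N)` with `0 ≤ s ≤ 1` and
`|z| = 1` (the mapping cylinder of `z ↦ z ^ N`), let `Y` be the disjoint union of the `K N` and let
`A` be the algebra of bounded continuous functions on `Y`.  Let `a` be the first coordinate
function.  Given numbers `0 < τ n ≤ 1`, the set `S` is the union over `n ≥ 1` of the sets `S n` of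
all `f` which are bounded below on the circles `s = 1`, have winding number `n` on each of
these circles, and differ from `x ^ n + τ n * y` somewhere on `K n`.

`S` is a semigroup because a function on `K (n + m)` with winding number `n` on the circle `s = 1`
(where `1 ≤ n < n + m`) must vanish somewhere, whereas `x ^ (n + m) + τ * y` has no zero on
`K (n + m)`.  The distance of `a ^ n` from the complement of `S` is exactly `τ n`.
-/

open Set Metric Topology Filter

namespace Pool.Agent.Results.MP_b2b51b_an.RootLimitFails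

/-- Continuous functions on the circle of the form `z ^ n * exp (g z)`. -/
def W (n : ℕ) : Set C(Circle, ℂ) :=
  {f | ∃ g : C(Circle, ℂ), ∀ z : Circle, f z = (z : ℂ) ^ n * Complex.exp (g z)}

lemma W_ne_zero {n : ℕ} {f : C(Circle, ℂ)} (hf : f ∈ W n) (z : Circle) : f z ≠ 0 := by
  obtain ⟨g, hg⟩ := hf
  rw [hg z]
  exact mul_ne_zero (pow_ne_zero _ (Circle.coe_ne_zero z)) (Complex.exp_ne_zero _)

/-- A perturbation of `f ∈ W n` that is smaller than `|f|` pointwise stays in `W n`. -/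
lemma W_perturb {n : ℕ} {f h : C(Circle, ℂ)} (hf : f ∈ W n)
    (hh : ∀ z, ‖h z - f z‖ < ‖f z‖) : h ∈ W n := by
  have hne := W_ne_zero hf
  obtain ⟨g, hg⟩ := hf
  have hu : ∀ z, ‖(h z - f z) / f z‖ < 1 := by
    intro z
    rw [norm_div, div_lt_one (norm_pos_iff.2 (hne z))]
    exact hh z
  have hs : ∀ z, 1 + (h z - f z) / f z ∈ Complex.slitPlane :=
    fun z => Complex.mem_slitPlane_of_norm_lt_one (hu z)
  have hc : Continuous fun z : Circle => Complex.log (1 + (h z - f z) / f z) := by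
    apply Continuous.clog _ hs
    exact continuous_const.add
      (Continuous.div₀ ((map_continuous h).sub (map_continuous f)) (map_continuous f) hne)
  refine ⟨g + ⟨_, hc⟩, fun z => ?_⟩
  have h1 : Complex.exp (Complex.log (1 + (h z - f z) / f z)) = 1 + (h z - f z) / f z :=
    Complex.exp_log (Complex.slitPlane_ne_zero (hs z))
  simp only [ContinuousMap.add_apply, ContinuousMap.coe_mk, Complex.exp_add, h1]
  rw [← mul_assoc, ← hg z]
  field_simp [hne z]
  ring

lemma W_mul {n m : ℕ} {f h : C(Circle, ℂ)} (hf : f ∈ W n) (hh : h ∈ W m) : f * h ∈ W (n + m) := by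
  obtain ⟨g, hg⟩ := hf
  obtain ⟨k, hk⟩ := hh
  refine ⟨g + k, fun z => ?_⟩
  simp only [ContinuousMap.mul_apply, ContinuousMap.add_apply, Complex.exp_add, hg z, hk z]
  ring

/-- A continuous function on the line whose exponential is constantly `w` is constant. -/
lemma const_of_exp {c : ℝ → ℂ} (hc : Continuous c) {w : ℂ} (h : ∀ t, Complex.exp (c t) = w)
    (s t : ℝ) : c s = c t := by
  -- the function `c t - c s` takes values in `2 π i ℤ`
  have key : ∀ t, ∃ n : ℤ, c t - c s = n * (2 * Real.pi * Complex.I) := by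
    intro t
    apply Complex.exp_eq_one_iff.1
    rw [Complex.exp_sub, h, h, div_self]
    rw [← h s]
    exact Complex.exp_ne_zero _
  have hcont : Continuous fun t => ((c t - c s) / (2 * Real.pi * Complex.I)).re :=
    Complex.continuous_re.comp ((hc.sub continuous_const).div_const _)
  have hne : (2 * (Real.pi : ℂ) * Complex.I) ≠ 0 := by
    simp [Real.pi_ne_zero]
  have hint : ∀ t, ∃ n : ℤ, ((c t - c s) / (2 * Real.pi * Complex.I)).re = n := by
    intro t
    obtain ⟨n, hn⟩ := key t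
    refine ⟨n, ?_⟩
    rw [hn, mul_div_assoc, div_self hne]
    simp
  have hconst : ((c t - c s) / (2 * Real.pi * Complex.I)).re
      = ((c s - c s) / (2 * Real.pi * Complex.I)).re := by
    have hpre : IsPreconnected (univ : Set ℝ) := isPreconnected_univ
    have hT : IsDiscrete (range ((↑) : ℤ → ℝ)) := by
      have := Int.isClosedEmbedding_coe_real
      exact this.isEmbedding.isDiscrete_range
    exact hpre.constant_of_mapsTo hT hcont.continuousOn
      (fun x _ => by obtain ⟨n, hn⟩ := hint x; exact ⟨n, hn.symm⟩) (mem_univ _) (mem_univ _)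
  obtain ⟨n, hn⟩ := key t
  rw [hn, mul_div_assoc, div_self hne] at hconst
  simp only [sub_self, zero_div, mul_one, Complex.zero_re, Complex.intCast_re] at hconst
  have : n = 0 := by exact_mod_cast hconst
  rw [this] at hn
  simp only [Int.cast_zero, zero_mul] at hn
  exact (sub_eq_zero.1 hn).symm


/-- If `f ∈ W n` is a function of `z ^ N` (with `N ≥ 1`), then `N` divides `n`. -/
lemma dvd_of_W {n N : ℕ} (hN : 0 < N) {f : C(Circle, ℂ)} (hf : f ∈ W n)
    (φ : Circle → ℂ) (hφ : ∀ z, f z = φ (z ^ N)) : N ∣ n := by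
  obtain ⟨g, hg⟩ := hf
  -- a logarithm of `f` along the universal cover of the circle
  set c : ℝ → ℂ := fun t => g (Circle.exp t) + n * (t * Complex.I) with hc
  have hcc : Continuous c := by
    have h1 : Continuous fun t : ℝ => g (Circle.exp t) := by fun_prop
    have h2 : Continuous fun t : ℝ => ((n : ℂ) * ((t : ℂ) * Complex.I)) := by fun_prop
    exact h1.add h2
  have hexp : ∀ t : ℝ, Complex.exp (c t) = f (Circle.exp t) := by
    intro t
    rw [hg, hc]
    simp only [Complex.exp_add, Complex.exp_nat_mul, Circle.coe_exp]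
    ring
  have hN' : (N : ℝ) ≠ 0 := by exact_mod_cast hN.ne'
  set T : ℝ := 2 * Real.pi / N with hT
  have hNT : (N : ℝ) * T = 2 * Real.pi := by rw [hT]; field_simp
  -- `f` is invariant under the rotation by `T`
  have hinv : ∀ t : ℝ, f (Circle.exp (t + T)) = f (Circle.exp t) := by
    intro t
    rw [hφ, hφ]
    congr 1
    have e1 : Circle.exp (t + T) ^ N = Circle.exp (N * (t + T)) := by
      rw [← nsmul_eq_mul]
      exact (map_nsmul Circle.expHom N (t + T)).symm
    have e2 : Circle.exp t ^ N = Circle.exp (N * t) := by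
      rw [← nsmul_eq_mul]
      exact (map_nsmul Circle.expHom N t).symm
    rw [e1, e2, mul_add, hNT, Circle.exp_add, Circle.exp_two_pi, mul_one]
  have hne : ∀ t : ℝ, f (Circle.exp t) ≠ 0 := fun t => by
    rw [← hexp t]; exact Complex.exp_ne_zero _
  -- hence `c (t + T) - c t` is a constant in `2 π i ℤ`
  have hd : ∀ t : ℝ, Complex.exp (c (t + T) - c t) = 1 := by
    intro t
    rw [Complex.exp_sub, hexp, hexp, hinv, div_self (hne t)]
  obtain ⟨k, hk⟩ := Complex.exp_eq_one_iff.1 (hd 0)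
  have hconst : ∀ t : ℝ, c (t + T) - c t = k * (2 * Real.pi * Complex.I) := by
    intro t
    rw [← hk]
    exact const_of_exp ((hcc.comp (continuous_add_const T)).sub hcc) hd t 0
  have hsum : ∀ j : ℕ, c (j * T) - c 0 = j * (k * (2 * Real.pi * Complex.I)) := by
    intro j
    induction j with
    | zero => simp
    | succ j ih =>
      have := hconst (j * T)
      have e : ((j + 1 : ℕ) : ℝ) * T = j * T + T := by push_cast; ring
      rw [e]
      push_cast
      linear_combination this + ih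
  have h1 := hsum N
  rw [hNT] at h1
  have h2 : c (2 * Real.pi) - c 0 = n * (2 * Real.pi * Complex.I) := by
    simp only [hc, Circle.exp_two_pi, Circle.exp_zero]
    push_cast
    ring
  rw [h2] at h1
  have hpi : (2 * (Real.pi : ℂ) * Complex.I) ≠ 0 := by simp [Real.pi_ne_zero]
  have h3 : (n : ℂ) = N * k := mul_right_cancel₀ hpi (by rw [h1]; ring)
  have h4 : (n : ℤ) = N * k := by exact_mod_cast h3
  exact Int.natCast_dvd_natCast.1 ⟨k, h4⟩

/-- The sets `W n` are pairwise disjoint. -/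
lemma W_disjoint {n m : ℕ} {f : C(Circle, ℂ)} (hn : f ∈ W n) (hm : f ∈ W m) : n = m := by
  obtain ⟨g, hg⟩ := hn
  obtain ⟨k, hk⟩ := hm
  set c : ℝ → ℂ := fun t => g (Circle.exp t) - k (Circle.exp t) + ((n : ℂ) - m) * (t * Complex.I)
    with hc
  have hcc : Continuous c := by
    have h1 : Continuous fun t : ℝ => g (Circle.exp t) - k (Circle.exp t) := by fun_prop
    have h2 : Continuous fun t : ℝ => (((n : ℂ) - m) * ((t : ℂ) * Complex.I)) := by fun_prop
    exact h1.add h2
  have hexp : ∀ t : ℝ, Complex.exp (c t) = 1 := by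
    intro t
    have h1 := hg (Circle.exp t)
    rw [hk (Circle.exp t)] at h1
    have e : c t = (g (Circle.exp t) + n * (t * Complex.I)) - (k (Circle.exp t) + m * (t * Complex.I)) := by
      rw [hc]; ring
    rw [e, Complex.exp_sub, Complex.exp_add, Complex.exp_add, Complex.exp_nat_mul,
      Complex.exp_nat_mul, ← Circle.coe_exp, mul_comm (Complex.exp (g _)),
      mul_comm (Complex.exp (k _)), h1, div_self]
    exact mul_ne_zero (pow_ne_zero _ (Circle.coe_ne_zero _)) (Complex.exp_ne_zero _)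
  have h := const_of_exp hcc hexp (2 * Real.pi) 0
  simp only [hc, Circle.exp_two_pi, Circle.exp_zero] at h
  have hpi : (2 * (Real.pi : ℂ) * Complex.I) ≠ 0 := by simp [Real.pi_ne_zero]
  have h2 : ((n : ℂ) - m) * (2 * (Real.pi : ℂ) * Complex.I) = 0 := by
    push_cast at h
    linear_combination h
  rcases mul_eq_zero.1 h2 with h3 | h3
  · exact_mod_cast sub_eq_zero.1 h3
  · exact absurd h3 hpi

lemma isOpen_W (n : ℕ) : IsOpen (W n) := by
  rw [Metric.isOpen_iff]
  intro f hf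
  obtain ⟨z₀, -, hz₀⟩ := isCompact_univ.exists_isMinOn (univ_nonempty : (univ : Set Circle).Nonempty)
    (map_continuous f).norm.continuousOn
  refine ⟨‖f z₀‖, norm_pos_iff.2 (W_ne_zero hf z₀), fun h hh => W_perturb hf fun z => ?_⟩
  calc ‖h z - f z‖ ≤ ‖h - f‖ := (h - f).norm_coe_le_norm z
    _ = dist h f := (dist_eq_norm h f).symm
    _ < ‖f z₀‖ := hh
    _ ≤ ‖f z‖ := hz₀ (mem_univ z)

/-- A path of invertible functions that starts in `W n` stays in `W n`. -/
lemma W_of_path {n : ℕ} (F : C(unitInterval, C(Circle, ℂ))) (hF : ∀ s z, F s z ≠ 0)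
    (h1 : F 1 ∈ W n) : F 0 ∈ W n := by
  have hopen : IsOpen (F ⁻¹' W n) := (isOpen_W n).preimage (map_continuous F)
  have hclosed : IsClosed (F ⁻¹' W n) := by
    rw [← isOpen_compl_iff, Metric.isOpen_iff]
    intro s hs
    obtain ⟨z₀, -, hz₀⟩ := isCompact_univ.exists_isMinOn
      (univ_nonempty : (univ : Set Circle).Nonempty) (map_continuous (F s)).norm.continuousOn
    have hpos : 0 < ‖F s z₀‖ / 2 := half_pos (norm_pos_iff.2 (hF s z₀))
    obtain ⟨δ, hδ, hδ'⟩ := Metric.continuous_iff.1 (map_continuous F) s _ hpos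
    refine ⟨δ, hδ, fun t ht htW => hs ?_⟩
    refine W_perturb htW fun z => ?_
    have h2 : ‖F t z - F s z‖ < ‖F s z₀‖ / 2 :=
      calc ‖F t z - F s z‖ ≤ ‖F t - F s‖ := (F t - F s).norm_coe_le_norm z
        _ = dist (F t) (F s) := (dist_eq_norm _ _).symm
        _ < ‖F s z₀‖ / 2 := hδ' t ht
    have h3 : ‖F s z₀‖ ≤ ‖F s z‖ := hz₀ (mem_univ z)
    have h4 : ‖F s z‖ ≤ ‖F t z‖ + ‖F t z - F s z‖ := by
      calc ‖F s z‖ = ‖F t z - (F t z - F s z)‖ := by congr 1; ring
        _ ≤ _ := norm_sub_le _ _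
    rw [norm_sub_rev]
    linarith
  have huniv : F ⁻¹' W n = univ := IsClopen.eq_univ ⟨hclosed, hopen⟩ ⟨1, h1⟩
  have : (0 : unitInterval) ∈ F ⁻¹' W n := by rw [huniv]; trivial
  exact this

/-- The mapping cylinder of `z ↦ z ^ N`, as a subset of `ℂ × ℂ`. -/
def K (N : ℕ) : Set (ℂ × ℂ) :=
  range fun q : unitInterval × Circle =>
    (((q.1 : ℝ) : ℂ) * (q.2 : ℂ), (1 - ((q.1 : ℝ) : ℂ)) * ((q.2 ^ N : Circle) : ℂ))

/-- The disjoint union of the mapping cylinders. -/
abbrev Y : Type := Σ N : ℕ, K N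

/-- The point of `K N` with parameters `s, z`. -/
noncomputable def pt (N : ℕ) (s : unitInterval) (z : Circle) : Y :=
  ⟨N, ⟨(((s : ℝ) : ℂ) * (z : ℂ), (1 - ((s : ℝ) : ℂ)) * ((z ^ N : Circle) : ℂ)), ⟨(s, z), rfl⟩⟩⟩

lemma continuous_pt (N : ℕ) : Continuous fun q : unitInterval × Circle => pt N q.1 q.2 := by
  unfold pt
  refine continuous_sigmaMk.comp (Continuous.subtype_mk ?_ _)
  refine Continuous.prodMk ?_ ?_
  · fun_prop
  · fun_prop

/-- The first coordinate, as a bounded continuous function on `Y`. -/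
noncomputable def aF : BoundedContinuousFunction Y ℂ :=
  BoundedContinuousFunction.ofNormedAddCommGroup (fun p : Y => p.2.1.1)
    (continuous_sigma fun _ => continuous_fst.comp continuous_subtype_val) 1 (by
      rintro ⟨N, ⟨_, ⟨q, rfl⟩⟩⟩
      simp only [norm_mul, Complex.norm_real, Circle.norm_coe, mul_one, Real.norm_eq_abs]
      rw [abs_of_nonneg q.1.2.1]
      exact q.1.2.2)

/-- The second coordinate on `K n`, extended by zero. -/
noncomputable def yF (n : ℕ) : BoundedContinuousFunction Y ℂ :=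
  BoundedContinuousFunction.ofNormedAddCommGroup (fun p : Y => if p.1 = n then p.2.1.2 else 0)
    (continuous_sigma fun i => by
      by_cases h : i = n
      · simp only [h, if_true]
        exact continuous_snd.comp continuous_subtype_val
      · simp only [h, if_false]
        exact continuous_const) 1 (by
      rintro ⟨N, ⟨_, ⟨q, rfl⟩⟩⟩
      by_cases h : N = n
      · simp only [h, if_true]
        have e : (1 - ((q.1 : ℝ) : ℂ)) = ((1 - (q.1 : ℝ) : ℝ) : ℂ) := by push_cast; ring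
        rw [norm_mul, e, Complex.norm_real, Circle.norm_coe, mul_one, Real.norm_eq_abs,
          abs_of_nonneg (by linarith [q.1.2.2])]
        linarith [q.1.2.1]
      · simp [h])


/-- The restriction of `f` to the circle `s = 1` of `K N`. -/
noncomputable def bd (f : BoundedContinuousFunction Y ℂ) (N : ℕ) : C(Circle, ℂ) :=
  ⟨fun z => f (pt N 1 z), (map_continuous f).comp
    ((continuous_pt N).comp (Continuous.prodMk continuous_const continuous_id))⟩

/-- The part of degree `n` of the semigroup. -/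
def Sn (τ : ℕ → ℝ) (n : ℕ) : Set (BoundedContinuousFunction Y ℂ) :=
  {f | (∃ ε : ℝ, 0 < ε ∧ ∀ N z, ε ≤ ‖f (pt N 1 z)‖) ∧ (∀ N, bd f N ∈ W n) ∧
    ∃ s z, f (pt n s z) ≠ aF (pt n s z) ^ n + τ n * yF n (pt n s z)}

/-- The semigroup. -/
def S (τ : ℕ → ℝ) : Set (BoundedContinuousFunction Y ℂ) :=
  {f | ∃ n : ℕ, 1 ≤ n ∧ f ∈ Sn τ n}

lemma aF_pt (N : ℕ) (s : unitInterval) (z : Circle) : aF (pt N s z) = ((s : ℝ) : ℂ) * (z : ℂ) := rfl

lemma yF_pt_self (N : ℕ) (s : unitInterval) (z : Circle) :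
    yF N (pt N s z) = (1 - ((s : ℝ) : ℂ)) * ((z ^ N : Circle) : ℂ) := by
  simp [yF, pt]

/-- If `f` has degree `n` on the circle `s = 1` of `K (n + m)`, where `n, m ≥ 1`, then `f` has a zero
on `K (n + m)`. -/
lemma exists_zero {n m : ℕ} (hn : 1 ≤ n) (hm : 1 ≤ m) (f : BoundedContinuousFunction Y ℂ)
    (hf : bd f (n + m) ∈ W n) : ∃ s z, f (pt (n + m) s z) = 0 := by
  by_contra hcon
  push Not at hcon
  set G : C(unitInterval × Circle, ℂ) :=
    ⟨fun q => f (pt (n + m) q.1 q.2), (map_continuous f).comp (continuous_pt (n + m))⟩ with hG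
  have h1 : G.curry 1 = bd f (n + m) := by
    ext z; rfl
  have h0 : G.curry 0 ∈ W n := by
    refine W_of_path G.curry (fun s z => ?_) (by rw [h1]; exact hf)
    exact hcon s z
  have hdvd : (n + m) ∣ n := by
    have hpt : ∀ z z' : Circle, z ^ (n + m) = z' ^ (n + m) → pt (n + m) 0 z = pt (n + m) 0 z' := by
      intro z z' h
      simp [pt, h]
    classical
    refine dvd_of_W (by omega) h0
      (fun w => if h : ∃ z : Circle, z ^ (n + m) = w then f (pt (n + m) 0 h.choose) else 0)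
      (fun z => ?_)
    have hex : ∃ z' : Circle, z' ^ (n + m) = z ^ (n + m) := ⟨z, rfl⟩
    rw [dif_pos hex, hpt _ _ hex.choose_spec]
    rfl
  have := Nat.le_of_dvd (by omega) hdvd
  omega

lemma Sn_mul {τ : ℕ → ℝ} (hτ : ∀ n, 0 < τ n) {n m : ℕ} (hn : 1 ≤ n) (hm : 1 ≤ m)
    {f g : BoundedContinuousFunction Y ℂ} (hf : f ∈ Sn τ n) (hg : g ∈ Sn τ m) :
    f * g ∈ Sn τ (n + m) := by
  obtain ⟨⟨ε, hε, hfε⟩, hfW, -⟩ := hf
  obtain ⟨⟨δ, hδ, hgδ⟩, hgW, -⟩ := hg
  refine ⟨⟨ε * δ, mul_pos hε hδ, fun N z => ?_⟩, fun N => ?_, ?_⟩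
  · rw [BoundedContinuousFunction.mul_apply, norm_mul]
    exact mul_le_mul (hfε N z) (hgδ N z) hδ.le (norm_nonneg _)
  · exact W_mul (hfW N) (hgW N)
  · obtain ⟨s, z, hz⟩ := exists_zero hn hm f (hfW (n + m))
    refine ⟨s, z, ?_⟩
    rw [BoundedContinuousFunction.mul_apply, hz, zero_mul, aF_pt, yF_pt_self]
    have e : (((s : ℝ) : ℂ) * (z : ℂ)) ^ (n + m) +
        (τ (n + m) : ℂ) * ((1 - ((s : ℝ) : ℂ)) * ((z ^ (n + m) : Circle) : ℂ)) =
        (((s : ℝ) ^ (n + m) + τ (n + m) * (1 - (s : ℝ)) : ℝ) : ℂ) * ((z : ℂ) ^ (n + m)) := by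
      rw [Circle.coe_pow]
      push_cast
      ring
    rw [e]
    refine (mul_ne_zero ?_ (pow_ne_zero _ (Circle.coe_ne_zero z))).symm
    have hpos : 0 < (s : ℝ) ^ (n + m) + τ (n + m) * (1 - (s : ℝ)) := by
      rcases eq_or_lt_of_le s.2.2 with h | h
      · rw [h]; norm_num
      · have := mul_pos (hτ (n + m)) (sub_pos.2 h)
        have := pow_nonneg s.2.1 (n + m)
        linarith
    exact_mod_cast hpos.ne'

lemma isOpen_S (τ : ℕ → ℝ) : IsOpen (S τ) := by
  rw [Metric.isOpen_iff]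
  rintro f ⟨n, hn, ⟨ε, hε, hfε⟩, hfW, s, z, hsz⟩
  set δ := ‖f (pt n s z) - (aF (pt n s z) ^ n + τ n * yF n (pt n s z))‖ with hδ
  have hδpos : 0 < δ := norm_pos_iff.2 (sub_ne_zero.2 hsz)
  refine ⟨min (ε / 2) δ, lt_min (half_pos hε) hδpos, fun g hg => ⟨n, hn, ?_, ?_, s, z, ?_⟩⟩
  · refine ⟨ε / 2, half_pos hε, fun N w => ?_⟩
    have h1 : ‖g (pt N 1 w) - f (pt N 1 w)‖ < ε / 2 := by
      calc _ ≤ ‖g - f‖ := (g - f).norm_coe_le_norm _
        _ = dist g f := (dist_eq_norm _ _).symm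
        _ < min (ε / 2) δ := hg
        _ ≤ ε / 2 := min_le_left _ _
    have h2 := hfε N w
    have h3 : ‖f (pt N 1 w)‖ ≤ ‖g (pt N 1 w)‖ + ‖g (pt N 1 w) - f (pt N 1 w)‖ := by
      calc ‖f (pt N 1 w)‖ = ‖g (pt N 1 w) - (g (pt N 1 w) - f (pt N 1 w))‖ := by congr 1; ring
        _ ≤ _ := norm_sub_le _ _
    linarith
  · intro N
    refine W_perturb (hfW N) fun w => ?_
    calc ‖g (pt N 1 w) - f (pt N 1 w)‖ ≤ ‖g - f‖ := (g - f).norm_coe_le_norm _
        _ = dist g f := (dist_eq_norm _ _).symm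
        _ < min (ε / 2) δ := hg
        _ ≤ ε / 2 := min_le_left _ _
        _ ≤ ε := by linarith
        _ ≤ ‖f (pt N 1 w)‖ := hfε N w
  · intro h
    have h1 : ‖g (pt n s z) - f (pt n s z)‖ < δ := by
      calc _ ≤ ‖g - f‖ := (g - f).norm_coe_le_norm _
        _ = dist g f := (dist_eq_norm _ _).symm
        _ < min (ε / 2) δ := hg
        _ ≤ δ := min_le_right _ _
    rw [h, norm_sub_rev] at h1
    exact lt_irrefl _ h1

lemma ball_subset {τ : ℕ → ℝ} (hτ : ∀ n, 0 < τ n ∧ τ n ≤ 1) {n : ℕ} (hn : 1 ≤ n)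
    {f : BoundedContinuousFunction Y ℂ} (hf : ‖f - aF ^ n‖ < τ n) : f ∈ S τ := by
  have hb : ∀ N z, ‖f (pt N 1 z) - (z : ℂ) ^ n‖ < τ n := by
    intro N z
    have h := (f - aF ^ n).norm_coe_le_norm (pt N 1 z)
    have e : (f - aF ^ n) (pt N 1 z) = f (pt N 1 z) - (z : ℂ) ^ n := by
      simp [aF_pt]
    rw [e] at h
    exact lt_of_le_of_lt h hf
  have hzn : ∀ z : Circle, ‖(z : ℂ) ^ n‖ = 1 := by intro z; rw [norm_pow, Circle.norm_coe, one_pow]
  refine ⟨n, hn, ⟨τ n - ‖f - aF ^ n‖, by linarith, fun N z => ?_⟩, fun N => ?_, 0, 1, ?_⟩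
  · have h := (f - aF ^ n).norm_coe_le_norm (pt N 1 z)
    have e : (f - aF ^ n) (pt N 1 z) = f (pt N 1 z) - (z : ℂ) ^ n := by
      simp [aF_pt]
    rw [e] at h
    have h3 : ‖(z : ℂ) ^ n‖ ≤ ‖f (pt N 1 z)‖ + ‖f (pt N 1 z) - (z : ℂ) ^ n‖ := by
      calc ‖(z : ℂ) ^ n‖ = ‖f (pt N 1 z) - (f (pt N 1 z) - (z : ℂ) ^ n)‖ := by congr 1; ring
        _ ≤ _ := norm_sub_le _ _
    rw [hzn] at h3
    linarith [(hτ n).2]
  · have hz : (⟨fun z : Circle => (z : ℂ) ^ n, by fun_prop⟩ : C(Circle, ℂ)) ∈ W n :=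
      ⟨0, fun z => by simp⟩
    refine W_perturb hz fun z => ?_
    show ‖f (pt N 1 z) - (z : ℂ) ^ n‖ < ‖(z : ℂ) ^ n‖
    rw [hzn]
    exact lt_of_lt_of_le (hb N z) (hτ n).2
  · intro h
    have h1 := (f - aF ^ n).norm_coe_le_norm (pt n 0 1)
    have h0 : aF (pt n 0 1) = 0 := by simp [aF_pt]
    have e : (f - aF ^ n) (pt n 0 1) = τ n := by
      have : (f - aF ^ n) (pt n 0 1) = f (pt n 0 1) - aF (pt n 0 1) ^ n := rfl
      rw [this, h, yF_pt_self]
      simp
    rw [e, Complex.norm_real, Real.norm_eq_abs, abs_of_pos (hτ n).1] at h1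
    exact absurd hf (not_lt.2 h1)

lemma not_mem_S {τ : ℕ → ℝ} (n : ℕ) :
    aF ^ n + (τ n : ℂ) • yF n ∉ S τ := by
  rintro ⟨m, hm, -, hW, s, z, hsz⟩
  have hnm : n = m := by
    have h1 : bd (aF ^ n + (τ n : ℂ) • yF n) n ∈ W n := by
      refine ⟨0, fun z => ?_⟩
      show (aF (pt n 1 z)) ^ n + (τ n : ℂ) • yF n (pt n 1 z) = _
      rw [yF_pt_self, aF_pt]
      simp
    exact W_disjoint h1 (hW n)
  subst hnm
  exact hsz rfl

theorem infDist_pow {τ : ℕ → ℝ} (hτ : ∀ n, 0 < τ n ∧ τ n ≤ 1) {n : ℕ} (hn : 1 ≤ n) :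
    infDist (aF ^ n) (S τ)ᶜ = τ n := by
  apply le_antisymm
  · refine (infDist_le_dist_of_mem (not_mem_S (τ := τ) n)).trans ?_
    rw [dist_eq_norm]
    have e : aF ^ n - (aF ^ n + (τ n : ℂ) • yF n) = -((τ n : ℂ) • yF n) := by ring
    rw [e, norm_neg, norm_smul, Complex.norm_real, Real.norm_eq_abs, abs_of_pos (hτ n).1]
    have : ‖yF n‖ ≤ 1 := BoundedContinuousFunction.norm_ofNormedAddCommGroup_le _ zero_le_one _
    nlinarith [(hτ n).1]
  · rw [le_infDist ⟨_, not_mem_S (τ := τ) n⟩]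
    intro g hg
    by_contra hlt
    push Not at hlt
    exact hg (ball_subset hτ hn (by rw [← dist_eq_norm, dist_comm]; exact hlt))


/-- For every prescribed sequence `τ` with values in `(0, 1]` there are a commutative unital Banach
algebra, an open semigroup `S` and `a ∈ S` such that `d (a ^ n) = τ n` for all `n ≥ 1`. -/
theorem exists_prescribed (τ : ℕ → ℝ) (hτ : ∀ n, 0 < τ n ∧ τ n ≤ 1) :
    ∃ (A : Type) (_ : NormedCommRing A) (_ : NormedAlgebra ℂ A) (_ : CompleteSpace A)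
      (_ : NormOneClass A) (S : Set A),
      IsOpen S ∧ S ≠ univ ∧ (∀ x ∈ S, ∀ y ∈ S, x * y ∈ S) ∧
      ∃ a ∈ S, ∀ n : ℕ, 1 ≤ n → infDist (a ^ n) Sᶜ = τ n := by
  have hne : Nonempty Y := ⟨pt 0 0 1⟩
  refine ⟨BoundedContinuousFunction Y ℂ, inferInstance, inferInstance, inferInstance,
    inferInstance, S τ, isOpen_S τ, ?_, ?_, aF, ?_, fun n hn => infDist_pow hτ hn⟩
  · intro h
    have := not_mem_S (τ := τ) 0
    rw [h] at this
    exact this (mem_univ _)
  · rintro x ⟨n, hn, hx⟩ y ⟨m, hm, hy⟩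
    exact ⟨n + m, by omega, Sn_mul (fun n => (hτ n).1) hn hm hx hy⟩
  · refine ball_subset hτ (le_refl 1) ?_
    rw [pow_one, sub_self, norm_zero]
    exact (hτ 1).1

/-- There are a commutative unital complex Banach algebra `A`, an open multiplicative semigroup
`S ≠ A` and `a ∈ S` such that, with `d (x) = dist (x, A \ S)`, the sequence `d (a ^ n) ^ (1 / n)` does
not converge. -/
theorem result :
    ∃ (A : Type) (_ : NormedCommRing A) (_ : NormedAlgebra ℂ A) (_ : CompleteSpace A)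
      (_ : NormOneClass A) (S : Set A),
      IsOpen S ∧ S ≠ Set.univ ∧ (∀ x ∈ S, ∀ y ∈ S, x * y ∈ S) ∧
      ∃ a ∈ S, ¬ ∃ L : ℝ, Filter.Tendsto
        (fun n : ℕ => (Metric.infDist (a ^ n) Sᶜ) ^ ((1 : ℝ) / n)) Filter.atTop (𝓝 L) := by
  set τ : ℕ → ℝ := fun n => if Even n then (1 / 2 : ℝ) ^ n else 1 with hτdef
  have hτ : ∀ n, 0 < τ n ∧ τ n ≤ 1 := by
    intro n
    by_cases h : Even n
    · simp only [hτdef, h, if_true]
      exact ⟨by positivity, pow_le_one₀ (by norm_num) (by norm_num)⟩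
    · simp [hτdef, h]
  obtain ⟨A, i1, i2, i3, i4, S, hS1, hS2, hS3, a, ha, hd⟩ := exists_prescribed τ hτ
  refine ⟨A, i1, i2, i3, i4, S, hS1, hS2, hS3, a, ha, ?_⟩
  rintro ⟨L, hL⟩
  -- along the odd numbers the limit is `1`
  have h1 : Filter.Tendsto (fun k : ℕ => (1 : ℝ)) Filter.atTop (𝓝 L) := by
    have hsub : Filter.Tendsto (fun k : ℕ => 2 * k + 1) Filter.atTop Filter.atTop := by
      apply Filter.tendsto_atTop_mono (fun k => ?_) Filter.tendsto_id
      simp only [id]
      omega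
    refine (hL.comp hsub).congr fun k => ?_
    have hodd : ¬ Even (2 * k + 1) := by
      rw [Nat.not_even_iff_odd]
      exact ⟨k, rfl⟩
    simp only [Function.comp]
    rw [hd (2 * k + 1) (by omega)]
    simp only [hτdef, hodd, if_false, Real.one_rpow]
  -- along the even numbers the limit is `1 / 2`
  have h2 : Filter.Tendsto (fun k : ℕ => (1 / 2 : ℝ)) Filter.atTop (𝓝 L) := by
    have hsub : Filter.Tendsto (fun k : ℕ => 2 * (k + 1)) Filter.atTop Filter.atTop := by
      apply Filter.tendsto_atTop_mono (fun k => ?_) Filter.tendsto_id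
      simp only [id]
      omega
    refine (hL.comp hsub).congr fun k => ?_
    have heven : Even (2 * (k + 1)) := even_two_mul _
    simp only [Function.comp]
    rw [hd (2 * (k + 1)) (by omega)]
    simp only [hτdef, heven, if_true]
    rw [← Real.rpow_natCast, ← Real.rpow_mul (by norm_num)]
    have hne : ((2 * (k + 1) : ℕ) : ℝ) ≠ 0 := by positivity
    rw [mul_one_div_cancel hne, Real.rpow_one]
  have e1 : L = 1 := tendsto_nhds_unique h1 tendsto_const_nhds |>.symm ▸ rfl
  have e2 : L = 1 / 2 := tendsto_nhds_unique h2 tendsto_const_nhds |>.symm ▸ rfl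
  rw [e1] at e2
  norm_num at e2

end Pool.Agent.Results.MP_b2b51b_an.RootLimitFails
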